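import Pool.Agent.H728.AP.PolyR

/-!
# Affine polynomial projection is `∃ℝ`-hard

Given polynomials `f, g ∈ ℤ[x₀, …, x_{n-1}]`, it is `∃ℝ`-hard to decide whether
`f(x) = g(A x + b)` for some real matrix `A` and some real vector `b`. This is so even for
`f = x₀²` and for `g` of degree four.

Sketch of the proof. Let `S` be a system of equations `y = 1`, `y + y' = y''`, `y y' = y''` and let
`g = x₀² + ∑ e²`, where `e` runs over the differences of the two sides of the equations. If `S` has
a real solution `v` then `A = diag(1, 0, …, 0)` and `b = (0, v)` work for `f = x₀²`. Conversely, if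
`x₀² = g(A x + b)` then at `x = 0` one gets `0 = b₀² + ∑ e(b)²`, and `b` contains a solution of `S`.
-/

namespace Pool.Agent.Results.MP_ca1301_lc.AffineProjectionHard

open Pool.Agent.NPC Pool.Agent.NPC.ER Pool.Agent.H728.AP

/-- The affine polynomial projection problem is `∃ℝ`-hard under polynomial-time many-one
reductions, and it remains so for `f = x₀²`. -/
theorem result : ERHard (lang fun I : Inst => IsInst I ∧ AffProj I) ∧
    ERHard (lang fun I : Inst => (IsInst I ∧ I.2.1 = [(1, [0, 0])]) ∧ AffProj I) :=
  ⟨Pool.Agent.NPC.ER.AP.hard, Pool.Agent.NPC.ER.AP.hard_sq⟩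

end Pool.Agent.Results.MP_ca1301_lc.AffineProjectionHard
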